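import Pool.Agent.T2h51.LS.Main

/-! Large inscribed squares: closed curves (no regularity, self-intersections allowed) without
isosceles right triangles at one scale have an inscribed square which is larger than this scale. -/

set_option autoImplicit false

namespace Pool.Agent.Results.MP_5a3ebe_gt.LargeSquares

/-- The closed curve `c` (of period `1`) winds `n` times around `O`. -/
def Winds (c : ℝ → ℂ) (O : ℂ) (n : ℤ) : Prop :=
  ∃ k : ℝ → ℂ, Continuous k ∧ (∀ t, Complex.exp (k t) = c t - O) ∧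
    k 1 - k 0 = n * (2 * Real.pi * Complex.I)

/-- `O` is enclosed by the closed curve `c`: the curve winds an odd number of times around `O`. (For
a Jordan curve these are the points inside the curve.) -/
def Encl (c : ℝ → ℂ) (O : ℂ) : Prop := ∃ n : ℤ, Winds c O n ∧ Odd n

open Classical in
/-- The signed distance of `z` to the closed curve `c`: the distance of `z` to the curve if `z` is
enclosed, and minus the distance otherwise. -/
noncomputable def sdist (c : ℝ → ℂ) (z : ℂ) : ℝ :=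
  if Encl c z then Metric.infDist z (Set.range c) else -Metric.infDist z (Set.range c)

/-- For the chord from `A = c x` to `B = c y` let `D = A + i(B - A)` and `E = B + i(B - A)` be the
other two vertices of the square on its left. The pair of the signed distances of `D` and `E` to the
curve is a positive multiple of `(cos α, sin α)`. -/
def Dir (c : ℝ → ℂ) (α x y : ℝ) : Prop :=
  ∃ t : ℝ, 0 < t ∧ sdist c (c x + Complex.I * (c y - c x)) = t * Real.cos α ∧
    sdist c (c y + Complex.I * (c y - c x)) = t * Real.sin α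

/-- The points `A`, `A + w`, `A + w + iw`, `A + iw` are on the curve. For `w ≠ 0` these are the
vertices of a square of side `‖w‖`, with the side from `A` to `A + w`. -/
def Sq (c : ℝ → ℂ) (A w : ℂ) : Prop :=
  A ∈ Set.range c ∧ A + w ∈ Set.range c ∧ A + w + Complex.I * w ∈ Set.range c ∧
    A + Complex.I * w ∈ Set.range c

/-- `ρ` gives a scale `ρ (A, B)` for the chords `A B` of the curve, which is small in comparison with
the distances of `A` and `B` from `O`. Example: a constant `r ≤ √2 dist (O, C)`. -/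
structure Gauge (c : ℝ → ℂ) (O : ℂ) (ρ : ℂ × ℂ → ℝ) : Prop where
  cont : Continuous ρ
  pos : ∀ x y, 0 < ρ (c x, c y)
  le1 : ∀ x y, ρ (c x, c y) ≤ √2 * ‖c x - O‖
  le2 : ∀ x y, ρ (c x, c y) ≤ √2 * ‖c y - O‖

/-- Each point `A` of the set `K` is on the boundary of two opposite open disks of radius `R` that
contain no point of `K` (for instance, `K` is a closed curve of class `C^{1,1}` of reach at least
`R`). -/
def TwoDisks (K : Set ℂ) (R : ℝ) : Prop :=
  ∀ A ∈ K, ∃ ν : ℂ, ‖ν‖ = 1 ∧ ∀ B ∈ K, R ≤ ‖B - (A + R * ν)‖ ∧ R ≤ ‖B - (A - R * ν)‖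

/-- The circle of radius `R` around `0`. -/
noncomputable def circle (R : ℝ) (t : ℝ) : ℂ := R * Complex.exp (2 * Real.pi * t * Complex.I)

open Pool.Agent Pool.Agent.H763R2 in
theorem sdist_eq (c : ℝ → ℂ) : sdist c = An.mgc c := by
  funext z
  rfl

open Complex Pool.Agent Pool.Agent.H763R2 in
theorem step1 {c : ℝ → ℂ} (hc : Continuous c) (hper : ∀ t, c (t + 1) = c t) {O : ℂ}
    (hO : Encl c O) {ρ : ℂ × ℂ → ℝ} (hρ : Gauge c O ρ) (α : ℝ) :
    (∃ A w, Sq c A w ∧ ρ (A, A + w) ≤ ‖w‖) ∨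
    ∃ x y, x < y ∧ y < x + 1 ∧ ‖c y - c x‖ = ρ (c x, c y) ∧ Dir c α x y := by
  have L : An.Loop c := ⟨hc, hper⟩
  obtain ⟨n, ⟨k, hk, he, hkn⟩, hn⟩ := hO
  by_contra hcon
  push Not at hcon
  obtain ⟨h1, h2⟩ := hcon
  have hu : -exp (-(α : ℂ) * I) ≠ 0 := neg_ne_zero.2 (exp_ne_zero _)
  have hbig : ∀ x y, x < y → y < x + 1 → ρ (c x, c y) ≤ ‖c y - c x‖ →
      ¬ (An.DD c x y ∈ Set.range c ∧ An.CC c x y ∈ Set.range c) := by
    rintro x y - - hle ⟨hD, hC⟩
    have e1 : An.DD c x y = c x + I * (c y - c x) := by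
      unfold An.DD H763R2.Sq.Dv; ring
    have e2 : An.CC c x y = c x + (c y - c x) + I * (c y - c x) := by
      unfold An.CC H763R2.Sq.Cv; ring
    rw [e1] at hD
    rw [e2] at hC
    have := h1 (c x) (c y - c x) ⟨Set.mem_range_self x, by
      rw [add_sub_cancel]; exact Set.mem_range_self y, hC, hD⟩
    rw [add_sub_cancel] at this
    exact absurd hle (not_le.2 this)
  refine T2h51.LS.main L hn hk he hkn (γ := fun x y => ρ (c x, c y))
    (hρ.cont.comp (by fun_prop)) (fun x y => by rw [hper]) (fun x y => by rw [hper])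
    hρ.pos hρ.le1 hρ.le2 hu hbig (fun x y hx hy hxy => ?_)
  have hz : ¬ (An.mgc c (An.DD c x y) = 0 ∧ An.mgc c (An.CC c x y) = 0) := by
    rw [(An.mgc_sg L).zero L, (An.mgc_sg L).zero L]
    exact hbig x y hx hy hxy.ge
  by_contra hs
  rw [mem_slitPlane_iff] at hs
  push Not at hs
  obtain ⟨hre, him⟩ := hs
  set g : ℂ := An.GG c (An.mgc c) x y with hg
  set t : ℝ := -(-exp (-(α : ℂ) * I) * g).re with ht
  have ht0 : 0 ≤ t := by rw [ht]; linarith
  have e0 : -exp (-(α : ℂ) * I) * g = ((-t : ℝ) : ℂ) := by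
    apply Complex.ext
    · rw [ofReal_re, ht, neg_neg]
    · rw [ofReal_im, him]
  have e1 : g = t * exp (α * I) := by
    have : exp (-(α : ℂ) * I) * exp (α * I) = 1 := by
      rw [← exp_add]; ring_nf; exact exp_zero
    push_cast at e0
    linear_combination -exp (α * I) * e0 - g * this
  have g1 : g.re = An.mgc c (An.DD c x y) := by
    rw [hg]; unfold An.GG; simp
  have g2 : g.im = An.mgc c (An.CC c x y) := by
    rw [hg]; unfold An.GG; simp
  have r1 : g.re = t * Real.cos α := by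
    rw [e1, re_ofReal_mul, exp_ofReal_mul_I_re]
  have r2 : g.im = t * Real.sin α := by
    rw [e1, im_ofReal_mul, exp_ofReal_mul_I_im]
  have htp : 0 < t := by
    rcases ht0.lt_or_eq with h | h
    · exact h
    · exfalso
      rw [← h, zero_mul] at r1 r2
      exact hz ⟨g1.symm.trans r1, g2.symm.trans r2⟩
  have d1 : c x + I * (c y - c x) = An.DD c x y := by
    unfold An.DD H763R2.Sq.Dv; ring
  have d2 : c y + I * (c y - c x) = An.CC c x y := by
    unfold An.CC H763R2.Sq.Cv; ring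
  refine h2 x y hx hy hxy ⟨t, htp, ?_, ?_⟩
  · rw [sdist_eq, d1, ← g1]; exact r1
  · rw [sdist_eq, d2, ← g2]; exact r2

open Complex Pool.Agent Pool.Agent.H763R2 in
theorem step2 {c : ℝ → ℂ} (hc : Continuous c) (hper : ∀ t, c (t + 1) = c t) {O : ℂ}
    (hO : Encl c O) {ρ : ℂ × ℂ → ℝ} (hρ : Gauge c O ρ)
    (htri : ∀ A ∈ Set.range c, ∀ B ∈ Set.range c, ‖B - A‖ = ρ (A, B) →
      A + I * (B - A) ∉ Set.range c) : ∃ A w, Sq c A w ∧ ρ (A, A + w) < ‖w‖ := by
  have L : An.Loop c := ⟨hc, hper⟩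
  rcases step1 hc hper hO hρ (Real.pi / 2) with ⟨A, w, h, hle⟩ | ⟨x, y, hx, hy, hxy, t, ht, h1, -⟩
  · rcases hle.lt_or_eq with h' | h'
    · exact ⟨A, w, h, h'⟩
    · exfalso
      refine htri A h.1 (A + w) h.2.1 (by rw [add_sub_cancel_left]; exact h'.symm) ?_
      rw [add_sub_cancel_left]
      exact h.2.2.2
  · exfalso
    rw [Real.cos_pi_div_two, mul_zero, sdist_eq, (An.mgc_sg L).zero L] at h1
    exact htri _ (Set.mem_range_self x) _ (Set.mem_range_self y) hxy h1

theorem dist_le {c : ℝ → ℂ} {O : ℂ} {r : ℝ} (h : r ≤ √2 * Metric.infDist O (Set.range c)) (x : ℝ) :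
    r ≤ √2 * ‖c x - O‖ := by
  refine h.trans (mul_le_mul_of_nonneg_left ?_ (Real.sqrt_nonneg 2))
  rw [← dist_eq_norm, dist_comm]
  exact Metric.infDist_le_dist_of_mem (Set.mem_range_self x)

open Complex in
theorem step3 {c : ℝ → ℂ} (hc : Continuous c) (hper : ∀ t, c (t + 1) = c t) {O : ℂ}
    (hO : Encl c O) {r : ℝ} (hr : 0 < r) (hrO : r ≤ √2 * Metric.infDist O (Set.range c))
    (hsec : ∀ A ∈ Set.range c, ∃ ν : ℂ, ∀ B ∈ Set.range c, ‖B - A‖ = r →
      |(ν * (B - A)).im| < |(ν * (B - A)).re|) : ∃ A w, Sq c A w ∧ r < ‖w‖ := by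
  refine step2 hc hper hO (ρ := fun _ => r) ⟨continuous_const, fun _ _ => hr,
    fun x _ => dist_le hrO x, fun _ y => dist_le hrO y⟩ ?_
  intro A hA B hB hAB hD
  obtain ⟨ν, hν⟩ := hsec A hA
  have h1 := hν B hB hAB
  have h2 := hν _ hD (by rw [add_sub_cancel_left, norm_mul, norm_I, one_mul]; exact hAB)
  rw [add_sub_cancel_left, show ν * (I * (B - A)) = I * (ν * (B - A)) by ring, I_mul_re, I_mul_im,
    abs_neg] at h2
  exact lt_asymm h1 h2

open Complex in
theorem step4 {c : ℝ → ℂ} (hc : Continuous c) (hper : ∀ t, c (t + 1) = c t) {O : ℂ}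
    (hO : Encl c O) {K : Set ℂ} {R : ℝ} (hR : 0 < R) (hT : TwoDisks K R) {δ : ℝ}
    (hδ : ∀ t, ∃ B ∈ K, ‖c t - B‖ ≤ δ) {r : ℝ} (hr : 0 < r)
    (hr1 : r ≤ √2 * Metric.infDist O (Set.range c))
    (hr2 : (r + 2 * δ) ^ 2 / (2 * R) + 2 * δ < r / √2) : ∃ A w, Sq c A w ∧ r < ‖w‖ := by
  have hs0 : 0 < √2 := by positivity
  have hs2 : √2 * √2 = 2 := Real.mul_self_sqrt (by norm_num)
  refine step3 hc hper hO hr hr1 ?_
  rintro _ ⟨t, rfl⟩
  obtain ⟨a, ha, hat⟩ := hδ t
  obtain ⟨ν, hν, hd⟩ := hT a ha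
  refine ⟨I * (starRingEnd ℂ) ν, ?_⟩
  rintro _ ⟨s, rfl⟩ hst
  obtain ⟨b, hb, hbs⟩ := hδ s
  obtain ⟨h1, h2⟩ := hd b hb
  set v : ℂ := b - a with hv
  set v' : ℂ := c s - c t with hv'
  have hvv : ‖v' - v‖ ≤ 2 * δ := by
    rw [hv, hv', show c s - c t - (b - a) = (c s - b) - (c t - a) by ring]
    have := norm_sub_le (c s - b) (c t - a)
    linarith
  have hvn : ‖v‖ ≤ r + 2 * δ := by
    have := norm_sub_norm_le v v'
    rw [← norm_neg (v - v'), neg_sub] at this
    linarith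
  have sqn : ∀ z : ℂ, ‖z‖ ^ 2 = z.re ^ 2 + z.im ^ 2 := fun z => by
    rw [← normSq_eq_norm_sq, normSq_apply]; ring
  have hν1 : ν.re ^ 2 + ν.im ^ 2 = 1 := by rw [← sqn, hν]; norm_num
  have h1' : R ^ 2 ≤ ‖b - (a + R * ν)‖ ^ 2 := by gcongr
  have h2' : R ^ 2 ≤ ‖b - (a - R * ν)‖ ^ 2 := by gcongr
  rw [show b - (a + R * ν) = v - R * ν by rw [hv]; ring, sqn] at h1'
  rw [show b - (a - R * ν) = v + R * ν by rw [hv]; ring, sqn] at h2'
  simp only [sub_re, sub_im, add_re, add_im, re_ofReal_mul, im_ofReal_mul] at h1' h2'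
  have hvs := sqn v
  set p : ℝ := ((starRingEnd ℂ) ν * v).re with hp
  have hp' : p = ν.re * v.re + ν.im * v.im := by rw [hp]; simp
  have b1 : 2 * R * p ≤ ‖v‖ ^ 2 := by
    rw [hp', hvs]
    nlinarith [hν1, mul_self_nonneg R]
  have b2 : -(2 * R * p) ≤ ‖v‖ ^ 2 := by
    rw [hp', hvs]
    nlinarith [hν1, mul_self_nonneg R]
  have hvn2 : ‖v‖ ^ 2 ≤ (r + 2 * δ) ^ 2 := by gcongr
  have habs : |p| ≤ (r + 2 * δ) ^ 2 / (2 * R) := by
    rw [abs_le]
    constructor
    · rw [neg_le, le_div_iff₀ (by positivity)]; linarith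
    · rw [le_div_iff₀ (by positivity)]; linarith
  set p' : ℝ := ((starRingEnd ℂ) ν * v').re with hp1
  set q' : ℝ := ((starRingEnd ℂ) ν * v').im with hq1
  have hpp : |p' - p| ≤ 2 * δ := by
    have e : p' - p = ((starRingEnd ℂ) ν * (v' - v)).re := by
      rw [hp1, hp, ← sub_re]; congr 1; ring
    rw [e]
    refine (abs_re_le_norm _).trans ?_
    rw [norm_mul, RCLike.norm_conj, hν, one_mul]
    exact hvv
  have hp2 : |p'| < r / √2 := by
    have := abs_sub_abs_le_abs_sub p' p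
    linarith
  have hsum : p' ^ 2 + q' ^ 2 = r ^ 2 := by
    rw [← hst, hp1, hq1, ← sqn, norm_mul, RCLike.norm_conj, hν, one_mul]
  have hp3 : p' ^ 2 < r ^ 2 / 2 := by
    have h5 : |p'| ^ 2 < (r / √2) ^ 2 := by gcongr
    rw [sq_abs, div_pow, Real.sq_sqrt (by norm_num)] at h5
    exact h5
  rw [mul_assoc, I_mul_im, I_mul_re, abs_neg, ← sq_lt_sq]
  linarith

open Complex in
/-- the largest inscribed square -/
theorem step5 {c : ℝ → ℂ} (hc : Continuous c) (hper : ∀ t, c (t + 1) = c t) {s : ℝ} (hs : 0 < s)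
    (h : ∀ r, 0 < r → r < s → ∃ A w, Sq c A w ∧ r < ‖w‖) : ∃ A w, Sq c A w ∧ s ≤ ‖w‖ := by
  have L : Pool.Agent.H763R2.An.Loop c := ⟨hc, hper⟩
  have hC := L.compact
  have hCc := L.closed
  set K : Set (ℂ × ℂ) := (Set.range c ×ˢ Set.range c) ∩
    {p | p.1 + (p.2 - p.1) + I * (p.2 - p.1) ∈ Set.range c ∧ p.1 + I * (p.2 - p.1) ∈ Set.range c}
    with hK
  have hKc : IsCompact K := by
    refine (hC.prod hC).inter_right ?_
    exact (hCc.preimage (by fun_prop)).inter (hCc.preimage (by fun_prop))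
  have conv : ∀ A w, Sq c A w → (A, A + w) ∈ K := by
    rintro A w ⟨h1, h2, h3, h4⟩
    refine ⟨⟨h1, h2⟩, ?_, ?_⟩
    · show A + (A + w - A) + I * (A + w - A) ∈ _
      rw [add_sub_cancel_left]; exact h3
    · show A + I * (A + w - A) ∈ _
      rw [add_sub_cancel_left]; exact h4
  obtain ⟨A0, w0, h0, -⟩ := h (s / 2) (by positivity) (by linarith)
  obtain ⟨p, hp, hmax⟩ := hKc.exists_isMaxOn ⟨_, conv _ _ h0⟩ (f := fun p => ‖p.2 - p.1‖)
    (by fun_prop)
  obtain ⟨⟨h1, h2⟩, h3, h4⟩ := hp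
  refine ⟨p.1, p.2 - p.1, ⟨h1, by rw [add_sub_cancel]; exact h2, h3, h4⟩, ?_⟩
  refine le_of_forall_lt fun r hr => ?_
  rcases le_or_gt r 0 with hr0 | hr0
  · obtain ⟨A, w, hA, hw⟩ := h (s / 2) (by positivity) (by linarith)
    have := hmax (conv A w hA)
    simp only [Set.mem_ofPred_eq, add_sub_cancel_left] at this
    linarith
  · obtain ⟨A, w, hA, hw⟩ := h r hr0 hr
    have := hmax (conv A w hA)
    simp only [Set.mem_ofPred_eq, add_sub_cancel_left] at this
    linarith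

open Complex in
theorem step6 {R : ℝ} (hR : 0 < R) : TwoDisks (Set.range (circle R)) R ∧ Encl (circle R) 0 ∧
    R ≤ Metric.infDist 0 (Set.range (circle R)) ∧ ∀ A w, Sq (circle R) A w → ‖w‖ ≤ √2 * R := by
  have hn : ∀ t, ‖circle R t‖ = R := fun t => by
    unfold circle
    rw [show (2 * Real.pi * t * I : ℂ) = ((2 * Real.pi * t : ℝ) : ℂ) * I by push_cast; ring,
      norm_mul, norm_exp_ofReal_mul_I, norm_real, Real.norm_of_nonneg hR.le, mul_one]
  have hR' : (R : ℂ) ≠ 0 := by exact_mod_cast hR.ne'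
  refine ⟨?_, ?_, ?_, ?_⟩
  · rintro _ ⟨t, rfl⟩
    refine ⟨circle R t / R, ?_, ?_⟩
    · rw [norm_div, hn, norm_real, Real.norm_of_nonneg hR.le, div_self hR.ne']
    rintro _ ⟨s, rfl⟩
    rw [mul_div_cancel₀ _ hR', sub_self, sub_zero, hn]
    refine ⟨?_, le_rfl⟩
    have h1 := norm_sub_norm_le (circle R t + circle R t) (circle R s)
    have : ‖(2:ℂ)‖ = 2 := by simp
    rw [← two_mul, norm_mul, hn, hn, this] at h1
    rw [← two_mul, ← norm_neg, neg_sub]
    linarith
  · refine ⟨1, ⟨fun t => Real.log R + 2 * Real.pi * t * I, by fun_prop, fun t => ?_, ?_⟩, odd_one⟩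
    · unfold circle
      rw [exp_add, ← ofReal_exp, Real.exp_log hR, sub_zero]
    · push_cast; ring
  · refine (Metric.le_infDist (Set.range_nonempty _)).2 ?_
    rintro _ ⟨t, rfl⟩
    rw [dist_zero_left, hn]
  · rintro A w ⟨⟨a, ha⟩, -, ⟨b, hb⟩, -⟩
    have h1 : ‖w + I * w‖ ≤ R + R := by
      have e : w + I * w = (A + w + I * w) - A := by ring
      rw [e, ← hb, ← ha]
      refine (norm_sub_le _ _).trans ?_
      rw [hn, hn]
    have h2 : ‖w + I * w‖ = √2 * ‖w‖ := by
      rw [show w + I * w = (1 + I) * w by ring, norm_mul]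
      congr 1
      rw [norm_def, normSq_apply]
      simp
      norm_num
    rw [h2] at h1
    have hs0 : 0 < √2 := by positivity
    have hs2 : √2 * √2 = 2 := Real.mul_self_sqrt (by norm_num)
    nlinarith

/-- Let `C` be a closed curve in the plane, parametrised by `c : ℝ → ℂ` of period `1` (continuous; no
regularity; self-intersections are allowed), that winds an odd number of times around `O` (for a
Jordan curve: `O` is inside `C`).

1. Let `ρ (A, B)` be a positive continuous scale on the chords of `C` with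
   `ρ (A, B) ≤ √2 min (|A - O|, |B - O|)`, and let `α` be any direction. Then `C` has an inscribed
   square one of whose sides `A B` has length `|A - B| ≥ ρ (A, B)`, or there is a chord `A B` with
   `|A - B| = ρ (A, B)` and with direction `α`.
2. If `C` contains no isosceles right triangle `A`, `B`, `A + i(B - A)` with `|A - B| = ρ (A, B)`,
   then `C` has an inscribed square one of whose sides `A B` is longer than `ρ (A, B)`.
3. Let `0 < r ≤ √2 dist (O, C)`. If for each point `A` of `C` the points of `C` at distance exactly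
   `r` from `A` lie in an open double sector with apex `A` and opening 90 degrees, then `C` has an
   inscribed square of side more than `r`.
4. Let `K` be a set such that at each of its points two opposite open disks of radius `R` touch it
   and contain no point of it, and let `C` be in the closed `δ`-neighbourhood of `K`. If
   `0 < r ≤ √2 dist (O, C)` and `(r + 2 δ)² / (2 R) + 2 δ < r / √2`, then `C` has an inscribed square
   of side more than `r`. For `δ = R / 20` one can take `r = R` if `R ≤ √2 dist (O, C)`.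
5. (`K = C`, `δ = 0`.) If `C` itself has reach at least `R`, and `dist (O, C) ≥ R`, then `C` has an
   inscribed square of side at least `√2 R`. For the circle of radius `R` the assumptions hold, and
   there is no larger inscribed square. -/
theorem result (c : ℝ → ℂ) (hc : Continuous c) (hper : ∀ t, c (t + 1) = c t) (O : ℂ)
    (hO : Encl c O) :
    (∀ ρ : ℂ × ℂ → ℝ, Gauge c O ρ → ∀ α : ℝ, (∃ A w, Sq c A w ∧ ρ (A, A + w) ≤ ‖w‖) ∨
      ∃ x y, x < y ∧ y < x + 1 ∧ ‖c y - c x‖ = ρ (c x, c y) ∧ Dir c α x y) ∧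
    (∀ ρ : ℂ × ℂ → ℝ, Gauge c O ρ →
      (∀ A ∈ Set.range c, ∀ B ∈ Set.range c, ‖B - A‖ = ρ (A, B) →
        A + Complex.I * (B - A) ∉ Set.range c) → ∃ A w, Sq c A w ∧ ρ (A, A + w) < ‖w‖) ∧
    (∀ r : ℝ, 0 < r → r ≤ √2 * Metric.infDist O (Set.range c) →
      (∀ A ∈ Set.range c, ∃ ν : ℂ, ∀ B ∈ Set.range c, ‖B - A‖ = r →
        |(ν * (B - A)).im| < |(ν * (B - A)).re|) → ∃ A w, Sq c A w ∧ r < ‖w‖) ∧
    (∀ (K : Set ℂ) (R : ℝ), 0 < R → TwoDisks K R →
      (∀ δ r : ℝ, (∀ t, ∃ B ∈ K, ‖c t - B‖ ≤ δ) → 0 < r →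
        r ≤ √2 * Metric.infDist O (Set.range c) →
        (r + 2 * δ) ^ 2 / (2 * R) + 2 * δ < r / √2 → ∃ A w, Sq c A w ∧ r < ‖w‖) ∧
      ((∀ t, ∃ B ∈ K, ‖c t - B‖ ≤ R / 20) → R ≤ √2 * Metric.infDist O (Set.range c) →
        ∃ A w, Sq c A w ∧ R < ‖w‖)) ∧
    (∀ R : ℝ, 0 < R → R ≤ Metric.infDist O (Set.range c) → TwoDisks (Set.range c) R →
      ∃ A w, Sq c A w ∧ √2 * R ≤ ‖w‖) ∧
    (∀ R : ℝ, 0 < R → TwoDisks (Set.range (circle R)) R ∧ Encl (circle R) 0 ∧
      R ≤ Metric.infDist 0 (Set.range (circle R)) ∧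
      ∀ A w, Sq (circle R) A w → ‖w‖ ≤ √2 * R) := by
  have hs0 : 0 < √2 := by positivity
  have hs2 : √2 * √2 = 2 := Real.mul_self_sqrt (by norm_num)
  refine ⟨fun ρ hρ α => step1 hc hper hO hρ α, fun ρ hρ h => step2 hc hper hO hρ h,
    fun r hr h1 h2 => step3 hc hper hO hr h1 h2, fun K R hR hT =>
      ⟨fun δ r hδ hr h1 h2 => step4 hc hper hO hR hT hδ hr h1 h2, fun hδ h1 => ?_⟩,
    fun R hR hRO hT => ?_, fun R hR => step6 hR⟩
  · refine step4 hc hper hO hR hT hδ hR h1 ?_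
    have h1 : √2 ≤ 1.4143 := by
      rw [Real.sqrt_le_left (by norm_num)]; norm_num
    rw [lt_div_iff₀ hs0]
    have e : (R + 2 * (R / 20)) ^ 2 / (2 * R) + 2 * (R / 20) = (705 / 1000) * R := by
      field_simp; norm_num
    rw [e]
    nlinarith
  · refine step5 hc hper (by positivity) fun r hr hrs => ?_
    refine step4 hc hper hO hR hT (δ := 0) (fun t => ⟨c t, Set.mem_range_self t, by simp⟩) hr
      (hrs.le.trans (mul_le_mul_of_nonneg_left hRO hs0.le)) ?_
    rw [mul_zero, add_zero, add_zero, lt_div_iff₀ hs0, div_mul_eq_mul_div, div_lt_iff₀ (by positivity)]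
    nlinarith

end Pool.Agent.Results.MP_5a3ebe_gt.LargeSquares
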